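import Mathlib
namespace Pool.Agent.H.MP_89b2fa_an
open Real MeasureTheory Set Filter Topology Metric

noncomputable def F (T r : ℝ) : ℝ :=
  1 + T * (log (min r (exp (-T))))⁻¹ - log (max r (exp (-T))) / T
noncomputable def ps (T r : ℝ) : ℝ := T * ((log (min r (exp (-T))))⁻¹) ^ 2
noncomputable def ch (T r : ℝ) : ℝ := if r < exp (-T) then -2 * T * ((log r)⁻¹) ^ 3 / r else 0
noncomputable def w (T r : ℝ) : ℝ := if r < 1 then ps T r / (T * r ^ 2) else 0

variable {T r : ℝ}

lemma F_lo (hT : 0 < T) (h : r ≤ exp (-T)) : F T r = 2 + T * (log r)⁻¹ := by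
  unfold F; rw [min_eq_left h, max_eq_right h, log_exp]; field_simp; ring

lemma F_hi (hT : 0 < T) (h : exp (-T) ≤ r) : F T r = -log r / T := by
  unfold F; rw [min_eq_right h, max_eq_left h, log_exp]; field_simp; ring

lemma ps_lo (h : r ≤ exp (-T)) : ps T r = T * ((log r)⁻¹) ^ 2 := by
  unfold ps; rw [min_eq_left h]

lemma ps_hi (hT : 0 < T) (h : exp (-T) ≤ r) : ps T r = 1 / T := by
  unfold ps; rw [min_eq_right h, log_exp]; field_simp

lemma exp_lt (hT : 0 < T) : exp (-T) < 1 := by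
  rw [← exp_zero]; exact exp_lt_exp.2 (by linarith)

lemma cont_il : ContinuousOn (fun r : ℝ => (log r)⁻¹) (Ico 0 1) := by
  intro r hr
  rcases hr.1.eq_or_lt with h | h
  · subst h
    have h1 : Tendsto (fun r : ℝ => (log r)⁻¹) (𝓝[>] 0) (𝓝 0) :=
      tendsto_inv_atBot_zero.comp tendsto_log_nhdsGT_zero
    have h2 : ContinuousWithinAt (fun r : ℝ => (log r)⁻¹) (Ioi 0) 0 := by
      simpa [ContinuousWithinAt] using h1
    exact (continuousWithinAt_Ioi_iff_Ici.1 h2).mono fun x hx => hx.1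
  · exact ((continuousAt_log h.ne').inv₀ (log_neg h hr.2).ne).continuousWithinAt

lemma cont_m (hT : 0 < T) : ContinuousOn (fun r : ℝ => (log (min r (exp (-T))))⁻¹) (Ici 0) :=
  cont_il.comp (f := fun r : ℝ => min r (exp (-T))) (by fun_prop) fun r hr =>
    ⟨le_min hr (exp_pos _).le, (min_le_right _ _).trans_lt (exp_lt hT)⟩

lemma cont_F (hT : 0 < T) : ContinuousOn (F T) (Ici 0) := by
  unfold F
  refine (continuousOn_const.add (continuousOn_const.mul (cont_m hT))).sub
    (ContinuousOn.div_const (ContinuousOn.log (by fun_prop) fun r _ => ?_) _)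
  exact ((exp_pos _).trans_le (le_max_right _ _)).ne'

lemma cont_ps (hT : 0 < T) : ContinuousOn (ps T) (Ici 0) :=
  continuousOn_const.mul ((cont_m hT).pow 2)

lemma ps_zero : ps T 0 = 0 := by rw [ps_lo (exp_pos _).le]; simp
lemma F_zero (hT : 0 < T) : F T 0 = 2 := by rw [F_lo hT (exp_pos _).le]; simp
lemma F_one (hT : 0 < T) : F T 1 = 0 := by rw [F_hi hT (exp_lt hT).le]; simp

lemma log_le (hr : 0 < r) (h : r ≤ exp (-T)) : log r ≤ -T := by
  rw [← log_exp (-T)]; exact log_le_log hr h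

lemma der_il (hr : 0 < r) (h1 : r < 1) :
    HasDerivAt (fun r : ℝ => (log r)⁻¹) (-((log r)⁻¹) ^ 2 / r) r := by
  have hl := (log_neg hr h1).ne
  refine ((hasDerivAt_log hr.ne').fun_inv hl).congr_deriv ?_
  field_simp

lemma der_F (hT : 0 < T) (hr : 0 < r) : HasDerivAt (F T) (-ps T r / r) r := by
  have lo : r ≤ exp (-T) → HasDerivWithinAt (F T) (-ps T r / r) (Iic (exp (-T))) r := by
    intro h
    have h1 := ((der_il hr (h.trans_lt (exp_lt hT))).const_mul T).const_add 2
    rw [ps_lo h]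
    refine HasDerivWithinAt.congr (f := fun r => 2 + T * (log r)⁻¹) ?_
      (fun y hy => F_lo hT hy) (F_lo hT h)
    convert h1.hasDerivWithinAt using 1
    ring
  have hi : exp (-T) ≤ r → HasDerivWithinAt (F T) (-ps T r / r) (Ici (exp (-T))) r := by
    intro h
    have h1 := ((hasDerivAt_log hr.ne').fun_neg).div_const T
    rw [ps_hi hT h]
    refine HasDerivWithinAt.congr (f := fun r => -log r / T) ?_
      (fun y hy => F_hi hT hy) (F_hi hT h)
    refine (h1.congr_deriv ?_).hasDerivWithinAt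
    field_simp
  rcases lt_trichotomy r (exp (-T)) with h | h | h
  · exact (lo h.le).hasDerivAt (Iic_mem_nhds h)
  · have := (lo h.le).union (hi h.ge)
    rwa [Iic_union_Ici, hasDerivWithinAt_univ] at this
  · exact (hi h.le).hasDerivAt (Ici_mem_nhds h)

lemma der_ps (hT : 0 < T) (hr : 0 < r) (hne : r ≠ exp (-T)) : HasDerivAt (ps T) (ch T r) r := by
  rcases lt_or_gt_of_ne hne with h | h
  · have h1 := ((der_il hr (h.trans (exp_lt hT))).fun_pow 2).const_mul T
    have h2 : ps T =ᶠ[𝓝 r] fun r => T * ((log r)⁻¹) ^ 2 := by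
      filter_upwards [Iic_mem_nhds h] with y hy using ps_lo hy
    refine HasDerivAt.congr_of_eventuallyEq ?_ h2
    refine h1.congr_deriv ?_
    rw [ch, if_pos h]; simp; ring
  · have h2 : ps T =ᶠ[𝓝 r] fun _ => 1 / T := by
      filter_upwards [Ici_mem_nhds h] with y hy using ps_hi hT hy
    rw [ch, if_neg (not_lt.2 h.le)]
    exact (hasDerivAt_const _ _).congr_of_eventuallyEq h2

lemma il_bd (hT : 0 < T) (hr : 0 ≤ r) (h : r ≤ exp (-T)) :
    (log r)⁻¹ ≤ 0 ∧ -1 ≤ T * (log r)⁻¹ := by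
  rcases hr.eq_or_lt with h0 | h0
  · subst h0; simp
  · have := log_le h0 h
    have hl : log r < 0 := by linarith
    refine ⟨(inv_lt_zero.2 hl).le, ?_⟩
    rw [← div_eq_mul_inv, le_div_iff_of_neg hl]; linarith

lemma ps_nonneg (hT : 0 < T) : 0 ≤ ps T r := by unfold ps; positivity

lemma ps_le (hT : 0 < T) (hr : 0 ≤ r) : ps T r ≤ 1 / T := by
  rcases le_total r (exp (-T)) with h | h
  · obtain ⟨h1, h2⟩ := il_bd hT hr h
    rw [ps_lo h, le_div_iff₀ hT]
    have : T * (log r)⁻¹ ≤ 0 := mul_nonpos_of_nonneg_of_nonpos hT.le h1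
    nlinarith
  · rw [ps_hi hT h]

lemma F_bd (hT : 0 < T) (hr : 0 ≤ r) (h1 : r ≤ 1) : 0 ≤ F T r ∧ F T r ≤ 2 := by
  rcases le_total r (exp (-T)) with h | h
  · obtain ⟨h1, h2⟩ := il_bd hT hr h
    have : T * (log r)⁻¹ ≤ 0 := mul_nonpos_of_nonneg_of_nonpos hT.le h1
    rw [F_lo hT h]; constructor <;> linarith
  · rw [F_hi hT h]
    have h2 : log r ≤ 0 := log_nonpos hr h1
    have h3 : -T ≤ log r := by rw [← log_exp (-T)]; exact log_le_log (exp_pos _) h
    refine ⟨div_nonneg (by linarith) hT.le, ?_⟩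
    rw [div_le_iff₀ hT]; linarith

lemma w_nonneg (hT : 0 < T) : 0 ≤ w T r := by
  unfold w; split_ifs
  · exact div_nonneg (ps_nonneg hT) (by positivity)
  · exact le_rfl

/-- `|χ|/r ≤ 2 w`. -/
lemma ch_bd (hT : 0 < T) (hr : 0 ≤ r) : |ch T r / r| ≤ 2 * w T r := by
  unfold ch; split_ifs with h
  · rcases hr.eq_or_lt with h0 | h0
    · subst h0; simpa using w_nonneg hT
    obtain ⟨h1, h2⟩ := il_bd hT hr h.le
    rw [w, if_pos (h.trans (exp_lt hT)), ps_lo h.le]
    set a := (log r)⁻¹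
    have e : -2 * T * a ^ 3 / r / r = (2 * a ^ 2 / r ^ 2) * (-(T * a)) := by field_simp
    have e2 : 2 * (T * a ^ 2 / (T * r ^ 2)) = 2 * a ^ 2 / r ^ 2 := by field_simp
    have : T * a ≤ 0 := mul_nonpos_of_nonneg_of_nonpos hT.le h1
    have p : 0 ≤ 2 * a ^ 2 / r ^ 2 := by positivity
    rw [e, e2, abs_of_nonneg (mul_nonneg p (by linarith))]
    nlinarith
  · simpa using w_nonneg hT

lemma g_sq (hT : 0 < T) (hr : 0 ≤ r) (h1 : r < 1) : (ps T r / r) ^ 2 ≤ w T r := by
  rw [w, if_pos h1]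
  rcases hr.eq_or_lt with h0 | h0
  · subst h0; simp
  have := ps_le hT hr
  have h2 := ps_nonneg (r := r) hT
  rw [le_div_iff₀ hT] at this
  rw [div_pow, div_le_div_iff₀ (by positivity) (by positivity)]
  have : ps T r * (ps T r * T) * r ^ 2 ≤ ps T r * 1 * r ^ 2 := by gcongr
  nlinarith

/-- inside the small disc. -/
lemma inner_bd (hT : 4 ≤ T) (hr : 0 ≤ r) (hc : ch T r / r ≠ 0) :
    2 ≤ ps T r / r ∧ (ch T r / r) ^ 2 = 4 * w T r * (ps T r / r) ^ 2 := by
  have hT0 : 0 < T := by linarith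
  have h : r < exp (-T) := by
    by_contra h; exact hc (by simp [ch, h])
  have h0 : 0 < r := hr.lt_of_ne fun e => hc (by simp [← e])
  have hl := log_le h0 h.le
  have hl0 : log r ≠ 0 := by intro e; linarith
  rw [ch, if_pos h, w, if_pos (h.trans (exp_lt hT0)), ps_lo h.le]
  refine ⟨?_, by field_simp; ring⟩
  have h2 : (-log r) ^ 2 / 2 ≤ exp (-log r) := by
    have := Real.pow_div_factorial_le_exp (-log r) (by linarith) 2
    simpa using this
  rw [exp_neg, exp_log h0] at h2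
  have h3 : (log r) ^ 2 * r ≤ 2 := by
    rw [div_le_iff₀ (by norm_num : (0:ℝ) < 2), neg_sq] at h2
    calc (log r) ^ 2 * r ≤ r⁻¹ * 2 * r := by gcongr
      _ = 2 := by field_simp
  rw [le_div_iff₀ h0, inv_pow, ← div_eq_mul_inv, le_div_iff₀ (by positivity)]
  nlinarith

/-- outside a disc of radius `p ≥ 1/T`. -/
lemma outer_bd (hT : 0 < T) {p : ℝ} (hp : 1 / T ≤ p) (hr : p ≤ r) :
    F T r ≤ 1 / (T * p) ∧ ps T r / r ≤ 1 / (T * p) ∧ ch T r = 0 ∧ w T r ≤ (1 / (T * p)) ^ 2 := by
  have h0 : 0 < p := lt_of_lt_of_le (by positivity) hp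
  have h1 : exp (-T) ≤ r := by
    refine le_trans ?_ (hp.trans hr)
    rw [exp_neg, one_div]
    exact inv_anti₀ hT (by linarith [add_one_le_exp T])
  have hr0 : 0 < r := h0.trans_le hr
  refine ⟨?_, ?_, by rw [ch, if_neg (not_lt.2 h1)], ?_⟩
  · rw [F_hi hT h1]
    have : -log r ≤ 1 / p := by
      have := Real.log_le_sub_one_of_pos (inv_pos.2 hr0)
      rw [log_inv] at this
      have h3 : r⁻¹ ≤ 1 / p := by rw [one_div]; exact inv_anti₀ h0 hr
      linarith
    calc -log r / T ≤ (1 / p) / T := by gcongr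
      _ = _ := by field_simp
  · rw [ps_hi hT h1]
    calc 1 / T / r ≤ 1 / T / p := by gcongr
      _ = _ := by field_simp
  · unfold w; split_ifs
    · rw [ps_hi hT h1]
      calc 1 / T / (T * r ^ 2) ≤ 1 / T / (T * p ^ 2) := by gcongr
        _ = _ := by field_simp
    · positivity

lemma meas_F : Measurable (F T) := by unfold F; fun_prop
lemma meas_ps : Measurable (ps T) := by unfold ps; fun_prop
lemma meas_ch : Measurable (ch T) :=
  Measurable.ite measurableSet_Iio (by fun_prop) measurable_const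
lemma meas_w : Measurable (w T) :=
  Measurable.ite measurableSet_Iio (meas_ps.div (by fun_prop)) measurable_const

lemma int_ps (hT : 0 < T) : IntervalIntegrable (fun r => ps T r / r) volume 0 1 ∧
    ∫ r in (0:ℝ)..1, ps T r / r = 2 := by
  have hc : ContinuousOn (fun r => -F T r) (Icc 0 1) := ((cont_F hT).mono fun x hx => hx.1).neg
  have hd : ∀ x ∈ Ioo (0:ℝ) 1, HasDerivAt (fun r => -F T r) (ps T x / x) x := fun x hx => by
    refine (der_F hT hx.1).fun_neg.congr_deriv ?_; ring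
  have hi : IntervalIntegrable (fun r => ps T r / r) volume 0 1 := by
    rw [intervalIntegrable_iff_integrableOn_Ioc_of_le zero_le_one]
    exact intervalIntegral.integrableOn_deriv_of_nonneg hc hd
      fun x hx => div_nonneg (ps_nonneg hT) hx.1.le
  refine ⟨hi, ?_⟩
  rw [intervalIntegral.integral_eq_sub_of_hasDerivAt_of_le zero_le_one hc hd hi, F_one hT,
    F_zero hT]
  norm_num

lemma rw_eq (hT : 0 < T) (hr : 0 < r) :
    r * w T r = (Ioo 0 1).indicator (fun r => ps T r / r / T) r := by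
  unfold w; split_ifs with h
  · rw [indicator_of_mem (show r ∈ Ioo (0:ℝ) 1 from ⟨hr, h⟩)]; field_simp
  · rw [indicator_of_notMem (fun h' => h h'.2)]; simp

lemma int_rw (hT : 0 < T) : IntegrableOn (fun r => r * w T r) (Ioi 0) ∧
    ∫ r in Ioi (0:ℝ), r * w T r = 2 / T := by
  obtain ⟨h1, h2⟩ := int_ps hT
  rw [intervalIntegrable_iff_integrableOn_Ioo_of_le zero_le_one] at h1
  rw [intervalIntegral.integral_of_le zero_le_one, integral_Ioc_eq_integral_Ioo] at h2
  have e : EqOn (fun r => r * w T r) ((Ioo 0 1).indicator (fun r => ps T r / r / T)) (Ioi 0) :=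
    fun r hr => rw_eq hT hr
  refine ⟨(integrableOn_congr_fun e measurableSet_Ioi).2 ?_, ?_⟩
  · exact ((integrable_indicator_iff measurableSet_Ioo).2 (h1.div_const T)).integrableOn
  · rw [setIntegral_congr_fun measurableSet_Ioi e, setIntegral_indicator measurableSet_Ioo,
      inter_eq_self_of_subset_right Ioo_subset_Ioi_self, integral_div, h2]

lemma int_w (hT : 0 < T) : Integrable (fun z : ℂ => w T ‖z‖) ∧
    ∫ z : ℂ, w T ‖z‖ = 4 * (volume : Measure ℂ).real (ball 0 1) / T := by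
  obtain ⟨h1, h2⟩ := int_rw hT
  constructor
  · rw [integrable_fun_norm_addHaar (volume : Measure ℂ) (f := w T)]
    simpa using h1
  · rw [integral_fun_norm_addHaar (volume : Measure ℂ) (w T)]
    simp only [Complex.finrank_real_complex, Nat.add_one_sub_one, pow_one, smul_eq_mul, h2,
      nsmul_eq_mul]
    push_cast; ring

end Pool.Agent.H.MP_89b2fa_an
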