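import Mathlib
import Pool.Agent.H.MP_89b2fa_an.A
namespace Pool.Agent.H.MP_89b2fa_an
open Real MeasureTheory Set Filter Topology Metric

/-- divergence theorem in the plane with one exceptional point. -/
lemma div_thm (P : ℂ → ℝ) (P' : ℂ → ℂ →L[ℝ] ℝ) (v : ℂ) (hc : Continuous P)
    (h0 : ∀ z, 1 ≤ ‖z‖ → P z = 0 ∧ P' z v = 0) (hd : ∀ z, z ≠ 0 → HasFDerivAt P (P' z) z)
    (hi : Integrable fun z => P' z v) : ∫ z, P' z v = 0 := by
  set e : (ℝ × ℝ) ≃L[ℝ] ℂ := Complex.equivRealProdCLM.symm with he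
  have mp : MeasurePreserving (Complex.measurableEquivRealProd.symm) volume volume :=
    Complex.volume_preserving_equiv_real_prod.symm
  have ee : ∀ p, Complex.measurableEquivRealProd.symm p = e p := fun p => rfl
  have e1 : ∀ p : ℝ × ℝ, (e p).re = p.1 ∧ (e p).im = p.2 := fun p => ⟨rfl, rfl⟩
  have n1 : ∀ p : ℝ × ℝ, 1 ≤ |p.1| ∨ 1 ≤ |p.2| → 1 ≤ ‖e p‖ := by
    rintro p (h | h)
    · exact h.trans (by simpa [(e1 p).1] using Complex.abs_re_le_norm (e p))
    · exact h.trans (by simpa [(e1 p).2] using Complex.abs_im_le_norm (e p))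
  have key : ∀ p : ℝ × ℝ, (v.re • (P' (e p)).comp (e : ℝ × ℝ →L[ℝ] ℂ)) (1, 0) +
      (v.im • (P' (e p)).comp (e : ℝ × ℝ →L[ℝ] ℂ)) (0, 1) = P' (e p) v := by
    intro p
    have : v = v.re • e (1, 0) + v.im • e (0, 1) := by
      apply Complex.ext <;> simp [e1]
    conv_rhs => rw [this]
    simp only [smul_apply, ContinuousLinearMap.comp_apply, map_add, map_smul,
      ContinuousLinearEquiv.coe_coe]
  have hi' : Integrable fun p : ℝ × ℝ => P' (e p) v :=
    (mp.integrable_comp_emb Complex.measurableEquivRealProd.symm.measurableEmbedding).2 hi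
  have dd : ∀ c : ℝ, ∀ x ∈ Ioo (-1 : ℝ) 1 ×ˢ Ioo (-1 : ℝ) 1 \ {0},
      HasFDerivAt (fun p => c • P (e p)) (c • (P' (e x)).comp (e : ℝ × ℝ →L[ℝ] ℂ)) x := by
    intro c x hx
    have : e x ≠ 0 := fun h => hx.2 (by simpa using h)
    exact ((hd _ this).comp x (e : ℝ × ℝ →L[ℝ] ℂ).hasFDerivAt).const_smul c
  have cc : ∀ c : ℝ, Continuous fun p => c • P (e p) := fun c => by fun_prop
  have H := integral_divergence_prod_Icc_of_hasFDerivAt_off_countable_of_le
    (fun p => v.re • P (e p)) (fun p => v.im • P (e p))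
    (fun p => v.re • (P' (e p)).comp (e : ℝ × ℝ →L[ℝ] ℂ))
    (fun p => v.im • (P' (e p)).comp (e : ℝ × ℝ →L[ℝ] ℂ)) (-1, -1) (1, 1)
    (by constructor <;> norm_num) {0} (countable_singleton _) (cc _).continuousOn
    (cc _).continuousOn (dd _) (dd _) (by simp only [key]; exact hi'.integrableOn)
  simp only [key] at H
  have z1 : ∀ x : ℝ, P (e (x, 1)) = 0 := fun x => (h0 _ (n1 _ (by simp))).1
  have z2 : ∀ x : ℝ, P (e (x, -1)) = 0 := fun x => (h0 _ (n1 _ (by simp))).1
  have z3 : ∀ x : ℝ, P (e (1, x)) = 0 := fun x => (h0 _ (n1 _ (by simp))).1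
  have z4 : ∀ x : ℝ, P (e (-1, x)) = 0 := fun x => (h0 _ (n1 _ (by simp))).1
  simp only [z1, z2, z3, z4, smul_zero, intervalIntegral.integral_zero, sub_zero, add_zero] at H
  rw [setIntegral_eq_integral_of_forall_compl_eq_zero] at H
  · rw [← H, ← mp.integral_comp Complex.measurableEquivRealProd.symm.measurableEmbedding]
    rfl
  · intro p hp
    refine (h0 _ (n1 p ?_)).2
    by_contra hh
    push Not at hh
    obtain ⟨a1, a2⟩ := abs_lt.1 hh.1
    obtain ⟨a3, a4⟩ := abs_lt.1 hh.2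
    exact hp ⟨⟨a1.le, a3.le⟩, ⟨a2.le, a4.le⟩⟩

noncomputable def gr (T : ℝ) (z : ℂ) : ℂ := (-(ps T ‖z‖ / ‖z‖ ^ 2)) • z
noncomputable def lp (T : ℝ) (z : ℂ) : ℝ := -(ch T ‖z‖ / ‖z‖)

variable {T : ℝ}

lemma meas_gr : Measurable (gr T) := by
  have := meas_ps (T := T)
  unfold gr; fun_prop

lemma meas_lp : Measurable (lp T) := by
  have := meas_ch (T := T)
  unfold lp; fun_prop

lemma norm_gr (hT : 0 < T) (z : ℂ) : ‖gr T z‖ = ps T ‖z‖ / ‖z‖ := by
  rcases eq_or_ne z 0 with h | h
  · simp [h, gr]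
  have := norm_pos_iff.2 h
  rw [gr, norm_smul, norm_neg, Real.norm_eq_abs,
    abs_of_nonneg (div_nonneg (ps_nonneg hT) (by positivity))]
  field_simp

lemma der_f (hT : 0 < T) {z : ℂ} (hz : z ≠ 0) :
    HasFDerivAt (fun z : ℂ => F T ‖z‖) (innerSL ℝ (gr T z)) z := by
  have h0 := norm_pos_iff.2 hz
  have h1 := (hasStrictFDerivAt_norm_sq z).hasFDerivAt.sqrt (by positivity)
  simp only [sqrt_sq (norm_nonneg _)] at h1
  have h2 := (der_F hT h0).comp_hasFDerivAt z h1
  refine h2.congr_fderiv ?_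
  ext v
  simp only [gr, smul_apply, innerSL_apply_apply, inner_smul_left,
    smul_eq_mul, nsmul_eq_mul]
  simp
  field_simp

structure Tst (h : ℂ → ℝ) (h' : ℂ → ℂ →L[ℝ] ℝ) (C : ℝ) : Prop where
  d : ∀ z, HasFDerivAt h (h' z) z
  c : Continuous h'
  z : ∀ z, 1 ≤ ‖z‖ → h z = 0 ∧ h' z = 0
  b : ∀ z, |h z| ≤ C ∧ ‖h' z‖ ≤ C

variable {h : ℂ → ℝ} {h' : ℂ → ℂ →L[ℝ] ℝ} {C : ℝ}

lemma Tst.cont (H : Tst h h' C) : Continuous h :=
  continuous_iff_continuousAt.2 fun z => (H.d z).continuousAt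

lemma Tst.nn (H : Tst h h' C) : 0 ≤ C := (abs_nonneg _).trans (H.b 0).1

lemma g_le (hT : 0 < T) {z : ℂ} (hz : ‖z‖ < 1) : ‖gr T z‖ ≤ T * w T ‖z‖ := by
  rw [norm_gr hT, w, if_pos hz]
  rcases eq_or_ne z 0 with h | h
  · simp [h]
  have h0 := norm_pos_iff.2 h
  have := ps_nonneg (r := ‖z‖) hT
  calc ps T ‖z‖ / ‖z‖ ≤ ps T ‖z‖ / ‖z‖ ^ 2 := by gcongr; nlinarith
    _ = _ := by field_simp

lemma peak_a (hT : 0 < T) (H : Tst h h' C) (v : ℂ) :
    ∫ z, (F T ‖z‖ * h' z v + h z * inner ℝ (gr T z) v) = 0 := by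
  have cf : Continuous fun z : ℂ => F T ‖z‖ :=
    (cont_F hT).comp_continuous continuous_norm fun z => norm_nonneg z
  have hc := H.cont
  have hc' := H.c
  have i1 : Integrable fun z : ℂ => F T ‖z‖ * h' z v := by
    refine Continuous.integrable_of_hasCompactSupport (by fun_prop) ?_
    refine HasCompactSupport.intro (isCompact_closedBall 0 1) fun z hz => ?_
    rw [mem_closedBall_zero_iff, not_le] at hz
    simp [(H.z z hz.le).2]
  have i2 : Integrable fun z : ℂ => h z * inner ℝ (gr T z) v := by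
    refine ((int_w hT).1.const_mul (C * (T * ‖v‖))).mono' ?_ (ae_of_all _ fun z => ?_)
    · have := meas_gr (T := T)
      have := hc.measurable
      exact Measurable.aestronglyMeasurable (by fun_prop)
    · have hw := w_nonneg (r := ‖z‖) hT
      have hC := H.nn
      rcases lt_or_ge ‖z‖ 1 with hz | hz
      · rw [norm_mul]
        calc ‖h z‖ * ‖inner ℝ (gr T z) v‖ ≤ C * (T * w T ‖z‖ * ‖v‖) := by
              gcongr
              · exact (H.b z).1
              · exact (norm_inner_le_norm _ _).trans (by gcongr; exact g_le hT hz)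
          _ = _ := by ring
      · rw [(H.z z hz).1]; simp only [zero_mul, norm_zero]; positivity
  have := div_thm (fun z => F T ‖z‖ * h z)
    (fun z => F T ‖z‖ • h' z + h z • innerSL ℝ (gr T z)) v (cf.mul hc)
    (fun z hz => by simp [H.z z hz]) (fun z hz => (der_f hT hz).mul (H.d z))
    (i1.add i2)
  exact this

lemma bd_b (hT : 0 < T) (H : Tst h h' C) (z : ℂ) :
    ‖h' z (gr T z) + h z * lp T z‖ ≤ C * (T + 2) * w T ‖z‖ := by
  have hw := w_nonneg (r := ‖z‖) hT
  have hC := H.nn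
  rcases lt_or_ge ‖z‖ 1 with hz | hz
  · have a1 : ‖h' z (gr T z)‖ ≤ C * (T * w T ‖z‖) :=
      ((h' z).le_opNorm _).trans (by gcongr; exacts [(H.b z).2, g_le hT hz])
    have a2 : ‖h z * lp T z‖ ≤ C * (2 * w T ‖z‖) := by
      rw [norm_mul]
      gcongr
      · exact (H.b z).1
      · rw [lp, norm_neg]; exact ch_bd hT (norm_nonneg _)
    exact (norm_add_le _ _).trans (by linarith)
  · simp only [H.z z hz, zero_apply, zero_mul, add_zero, norm_zero]
    positivity

lemma meas_b (H : Tst h h' C) : Measurable fun z => h' z (gr T z) + h z * lp T z := by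
  have h1 := meas_gr (T := T)
  have h2 := meas_lp (T := T)
  have h3 := H.cont.measurable
  have h4 : Continuous fun p : ℂ × ℂ => h' p.1 p.2 := by have := H.c; fun_prop
  exact (h4.measurable.comp (measurable_id.prodMk h1)).add (h3.mul h2)

lemma ray (hT : 0 < T) (H : Tst h h' C) (e : ℂ) (he : ‖e‖ = 1) :
    ∫ r in Ioi (0:ℝ), r • (h' (r * e) (gr T (r * e)) + h (r * e) * lp T (r * e)) = 0 := by
  have ne : ∀ r : ℝ, 0 ≤ r → ‖(r * e : ℂ)‖ = r := fun r hr => by
    rw [norm_mul, he, Complex.norm_real, Real.norm_of_nonneg hr, mul_one]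
  set J : ℝ → ℝ := fun r => r • (h' (r * e) (gr T (r * e)) + h (r * e) * lp T (r * e)) with hJ
  have hi : IntegrableOn J (Ioi 0) := by
    refine ((int_rw hT).1.const_mul (C * (T + 2))).mono' ?_ ?_
    · have := (meas_b (T := T) H).comp (show Measurable fun r : ℝ => (r * e : ℂ) by fun_prop)
      exact (measurable_id.smul this).aestronglyMeasurable
    · filter_upwards [ae_restrict_mem measurableSet_Ioi] with r hr
      have hr' : 0 < r := hr
      have := bd_b hT H (r * e)
      rw [ne r hr'.le] at this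
      rw [hJ, norm_smul, Real.norm_of_nonneg hr'.le]
      calc _ ≤ r * (C * (T + 2) * w T r) := by gcongr
        _ = _ := by ring
  have hc := H.cont
  have c1 : ContinuousOn (fun r : ℝ => -(ps T r * h (r * e))) (Icc 0 1) :=
    (((cont_ps hT).mono fun x hx => hx.1).mul (by fun_prop)).neg
  have d1 : ∀ r ∈ Ioo (0:ℝ) 1 \ {exp (-T)},
      HasDerivAt (fun r : ℝ => -(ps T r * h (r * e))) (J r) r := by
    intro r hr
    have hr0 := hr.1.1
    have a1 : HasDerivAt (fun r : ℝ => (r * e : ℂ)) e r := by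
      simpa using (Complex.ofRealCLM.hasDerivAt (x := r)).mul_const e
    have a2 := (H.d (r * e)).comp_hasDerivAt r a1
    refine ((der_ps hT hr0 hr.2).fun_mul a2).fun_neg.congr_deriv ?_
    have a3 : gr T (r * e) = (-(ps T r / r)) • e := by
      rw [gr, ne r hr0.le, ← Complex.real_smul, smul_smul]
      congr 1; field_simp
    simp only [hJ, a3, map_smul, lp, ne r hr0.le, smul_eq_mul, Function.comp]
    field_simp
    ring
  have H1 := integral_eq_of_hasDerivAt_off_countable_of_le _ J zero_le_one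
    (countable_singleton _) c1 d1 (by
      rw [intervalIntegrable_iff_integrableOn_Ioc_of_le zero_le_one]
      exact hi.mono_set Ioc_subset_Ioi_self)
  rw [intervalIntegral.integral_of_le zero_le_one, ps_zero, (H.z _ (ne 1 zero_le_one).ge).1] at H1
  have H2 : ∫ x in Ioc (0:ℝ) 1, J x = 0 := by rw [H1]; simp
  refine (setIntegral_eq_of_subset_of_forall_sdiff_eq_zero (f := J) measurableSet_Ioi
    (show Ioc (0:ℝ) 1 ⊆ Ioi 0 from Ioc_subset_Ioi_self) ?_).trans H2
  · intro r hr
    have h1 : 1 ≤ r := by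
      by_contra hh
      exact hr.2 ⟨hr.1, (not_le.1 hh).le⟩
    have := H.z (r * e) (by rw [ne r (by linarith)]; exact h1)
    simp [hJ, this]

lemma peak_b (hT : 0 < T) (H : Tst h h' C) :
    ∫ z, (h' z (gr T z) + h z * lp T z) = 0 := by
  rw [← Complex.integral_comp_polarCoord_symm, polarCoord_target, Measure.volume_eq_prod,
    ← Measure.prod_restrict, integral_prod_symm]
  · refine integral_eq_zero_of_ae (ae_of_all _ fun t => ?_)
    simp only [Complex.polarCoord_symm_apply]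
    exact ray hT H _ (by
      rw [Complex.ofReal_cos, Complex.ofReal_sin, Complex.norm_cos_add_sin_mul_I])
  · refine (((int_rw hT).1.const_mul (C * (T + 2))).comp_fst _).mono' ?_ ?_
    · have := (meas_b (T := T) H).comp
        (show Measurable fun p : ℝ × ℝ => Complex.polarCoord.symm p by
          simp only [Complex.polarCoord_symm_apply]; fun_prop)
      exact (measurable_fst.smul this).aestronglyMeasurable
    · rw [Measure.prod_restrict]
      filter_upwards [ae_restrict_mem (measurableSet_Ioi.prod measurableSet_Ioo)] with p hp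
      have hr' : 0 < p.1 := hp.1
      have := bd_b hT H (Complex.polarCoord.symm p)
      rw [Complex.norm_polarCoord_symm, abs_of_pos hr'] at this
      rw [norm_smul, Real.norm_of_nonneg hr'.le]
      calc _ ≤ p.1 * (C * (T + 2) * w T p.1) := by gcongr
        _ = _ := by ring

end Pool.Agent.H.MP_89b2fa_an
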