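import Mathlib
import Pool.Agent.H.MP_89b2fa_an.B
namespace Pool.Agent.H.MP_89b2fa_an
open Real MeasureTheory Set Filter Topology Metric

noncomputable def q (k : ℕ) : ℝ := (1 / 2) ^ k
noncomputable def x (k : ℕ) : ℂ := ((q k / 4 : ℝ) : ℂ)
noncomputable def TT (k : ℕ) : ℝ := 32 / q k ^ 2

lemma q_pos (k : ℕ) : 0 < q k := by unfold q; positivity
lemma q_le (k : ℕ) : q k ≤ 1 := pow_le_one₀ (by norm_num) (by norm_num)
lemma q_lt {j k : ℕ} (h : j < k) : q k ≤ q j / 2 := by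
  have : q k ≤ q (j + 1) := pow_le_pow_of_le_one (by norm_num) (by norm_num) h
  refine this.trans (le_of_eq ?_)
  unfold q; ring
lemma TT_ge (k : ℕ) : 4 ≤ TT k := by
  have := q_pos k
  have := q_le k
  rw [TT, le_div_iff₀ (by positivity)]; nlinarith
lemma TT_pos (k : ℕ) : 0 < TT k := by linarith [TT_ge k]
lemma norm_x (k : ℕ) : ‖x k‖ = q k / 4 := by
  rw [x, Complex.norm_real, Real.norm_of_nonneg (by have := q_pos k; positivity)]

lemma sep (z : ℂ) : ∃ k, ∀ j ≠ k, q j / 16 ≤ ‖z - x j‖ := by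
  by_cases h : ∃ k, ‖z - x k‖ < q k / 16
  · obtain ⟨k, hk⟩ := h
    refine ⟨k, fun j hj => ?_⟩
    by_contra hh
    have h1 : ‖x j - x k‖ ≤ ‖z - x k‖ + ‖z - x j‖ := by
      have : x j - x k = (z - x k) - (z - x j) := by ring
      rw [this]; exact norm_sub_le _ _
    have h2 : ‖x j - x k‖ = |q j / 4 - q k / 4| := by
      rw [x, x, ← Complex.ofReal_sub, Complex.norm_real, Real.norm_eq_abs]
    have := q_pos j
    have := q_pos k
    rcases lt_or_gt_of_ne hj with h | h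
    · have := q_lt h
      have := le_abs_self (q j / 4 - q k / 4)
      linarith
    · have := q_lt h
      have := neg_abs_le (q j / 4 - q k / 4)
      linarith
  · push Not at h
    exact ⟨0, fun j _ => h j⟩

lemma sumS {E : Type*} [NormedAddCommGroup E] [CompleteSpace E] (f : ℕ → E) (k : ℕ)
    (h : ∀ j ≠ k, ‖f j‖ ≤ q j / 2) :
    Summable (fun j => ‖f j‖) ∧ ∑' j, ‖f j‖ ≤ 1 + ‖f k‖ ∧ ‖∑' j, f j - f k‖ ≤ 1 := by
  have hs : HasSum (fun j => q j / 2) 1 := by
    simpa [q] using hasSum_geometric_two.div_const 2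
  have s1 : Summable (fun j => ‖f j‖) := by
    refine Summable.of_norm_bounded_eventually hs.summable ?_
    filter_upwards [(finite_singleton k).compl_mem_cofinite] with j hj
    rw [norm_norm]; exact h j hj
  have hq : ∀ j, 0 ≤ q j / 2 := fun j => by have := q_pos j; positivity
  refine ⟨s1, ?_, ?_⟩
  · rw [s1.tsum_eq_add_tsum_ite k, add_comm]
    gcongr
    refine (Real.le_norm_self _).trans (tsum_of_norm_bounded hs fun j => ?_)
    split_ifs with hj
    · simpa using hq j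
    · rw [norm_norm]; exact h j hj
  · rw [s1.of_norm.tsum_eq_add_tsum_ite k, add_sub_cancel_left]
    refine tsum_of_norm_bounded hs fun j => ?_
    split_ifs with hj
    · simpa using hq j
    · exact h j hj

lemma dom {μ : Measure ℂ} (f : ℕ → ℂ → ℝ) (hm : ∀ k, Measurable (f k)) (D : ℂ → ℝ)
    (hD : Integrable D μ) (h : ∀ᵐ z ∂μ, Summable (fun k => ‖f k z‖) ∧ ∑' k, ‖f k z‖ ≤ D z)
    (h0 : ∀ k, ∫ z, f k z ∂μ = 0) : ∫ z, ∑' k, f k z ∂μ = 0 := by
  rw [integral_tsum (fun k => (hm k).aestronglyMeasurable)]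
  · simp [h0]
  · rw [← lintegral_tsum fun k => (hm k).enorm.aemeasurable]
    refine (lt_of_le_of_lt (lintegral_mono_ae ?_) hD.2).ne
    filter_upwards [h] with z hz
    simp_rw [← ofReal_norm]
    rw [← ENNReal.ofReal_tsum_of_nonneg (fun k => norm_nonneg _) hz.1]
    exact ENNReal.ofReal_le_ofReal (hz.2.trans (le_abs_self _))

lemma outer (j : ℕ) {r : ℝ} (hr : q j / 16 ≤ r) :
    F (TT j) r ≤ q j / 2 ∧ ps (TT j) r / r ≤ q j / 2 ∧ ch (TT j) r = 0 ∧ w (TT j) r ≤ q j / 2 := by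
  have h0 := q_pos j
  have h1 := q_le j
  have e : 1 / (TT j * (q j / 16)) = q j / 2 := by unfold TT; field_simp; norm_num
  have := outer_bd (TT_pos j) (p := q j / 16) (by
    rw [TT, one_div_div, div_le_div_iff₀ (by norm_num) (by norm_num)]; nlinarith) hr
  rw [e] at this
  exact ⟨this.1, this.2.1, this.2.2.1, this.2.2.2.trans (by nlinarith)⟩

noncomputable def U (z : ℂ) : ℝ := ∑' k, F (TT k) ‖z - x k‖
noncomputable def G (z : ℂ) : ℂ := ∑' k, gr (TT k) (z - x k)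
noncomputable def L (z : ℂ) : ℝ := ∑' k, lp (TT k) (z - x k)
noncomputable def W (z : ℂ) : ℝ := ∑' k, w (TT k) ‖z - x k‖
noncomputable def B (z : ℂ) : ℂ := (L z / ‖G z‖ ^ 2) • G z

lemma mF (k : ℕ) : Measurable fun z : ℂ => F (TT k) ‖z - x k‖ := meas_F.comp (by fun_prop)
lemma mG (k : ℕ) : Measurable fun z : ℂ => gr (TT k) (z - x k) := meas_gr.comp (by fun_prop)
lemma mL (k : ℕ) : Measurable fun z : ℂ => lp (TT k) (z - x k) := meas_lp.comp (by fun_prop)
lemma mW (k : ℕ) : Measurable fun z : ℂ => w (TT k) ‖z - x k‖ := meas_w.comp (by fun_prop)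
lemma meas_U : Measurable U := Measurable.tsum mF
lemma meas_G : Measurable G := Measurable.tsum mG
lemma meas_L : Measurable L := Measurable.tsum mL
lemma meas_W : Measurable W := Measurable.tsum mW
lemma meas_B : Measurable B := by
  have := meas_G
  have := meas_L
  unfold B; fun_prop

lemma int_W : Integrable W := by
  refine ⟨meas_W.aestronglyMeasurable, ?_⟩
  set c := 4 * (volume : Measure ℂ).real (ball 0 1)
  have hc : 0 ≤ c := by positivity
  have h1 : ∀ k, ∫⁻ z : ℂ, ‖w (TT k) ‖z - x k‖‖ₑ = ENNReal.ofReal (c / TT k) := by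
    intro k
    have h2 := int_w (TT_pos k)
    rw [lintegral_sub_right_eq_self (fun z : ℂ => ‖w (TT k) ‖z‖‖ₑ) (x k),
      ← ofReal_integral_norm_eq_lintegral_enorm h2.1, ← h2.2]
    congr 2
    ext z; exact Real.norm_of_nonneg (w_nonneg (TT_pos k))
  have h2 : Summable fun k => c / TT k := by
    refine Summable.of_nonneg_of_le (fun k => div_nonneg hc (TT_pos k).le) (fun k => ?_)
      (summable_geometric_two.mul_left c)
    have := q_pos k
    have := q_le k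
    rw [div_eq_mul_inv, TT, inv_div]
    gcongr
    change _ ≤ q k
    nlinarith
  calc ∫⁻ z, ‖W z‖ₑ ≤ ∫⁻ z, ∑' k, ‖w (TT k) ‖z - x k‖‖ₑ :=
        lintegral_mono fun z => enorm_tsum_le_tsum_enorm
    _ = ∑' k, ENNReal.ofReal (c / TT k) := by
        rw [lintegral_tsum fun k => (mW k).enorm.aemeasurable]; simp_rw [h1]
    _ < ⊤ := by
        rw [← ENNReal.ofReal_tsum_of_nonneg (fun k => div_nonneg hc (TT_pos k).le) h2]
        exact ENNReal.ofReal_lt_top

lemma near {z : ℂ} (hz : ‖z‖ < 1 / 2) (k : ℕ) : ‖z - x k‖ < 1 := by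
  have := norm_sub_le z (x k)
  have := norm_x k
  have := q_le k
  linarith

lemma pw {z : ℂ} (hz : ‖z‖ < 1 / 2) :
    (Summable (fun k => ‖F (TT k) ‖z - x k‖‖) ∧ ∑' k, ‖F (TT k) ‖z - x k‖‖ ≤ 3) ∧
    (Summable (fun k => ‖gr (TT k) (z - x k)‖) ∧ ∑' k, ‖gr (TT k) (z - x k)‖ ≤ 2 + W z) ∧
    (Summable (fun k => ‖lp (TT k) (z - x k)‖) ∧ ∑' k, ‖lp (TT k) (z - x k)‖ ≤ 1 + 2 * W z) ∧
    ‖G z‖ ^ 2 ≤ 2 + 2 * W z ∧ ‖B z‖ ^ 2 ≤ 16 * W z ∧ inner ℝ (G z) (B z) = L z := by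
  obtain ⟨k, hk⟩ := sep z
  have fb := fun j => F_bd (TT_pos j) (norm_nonneg (z - x j)) (near hz j).le
  have s1 := sumS (fun j => F (TT j) ‖z - x j‖) k fun j hj => by
    rw [Real.norm_of_nonneg (fb j).1]; exact (outer j (hk j hj)).1
  have s2 := sumS (fun j => gr (TT j) (z - x j)) k fun j hj => by
    rw [norm_gr (TT_pos j)]; exact (outer j (hk j hj)).2.1
  have l0 : ∀ j ≠ k, lp (TT j) (z - x j) = 0 := fun j hj => by
    simp [lp, (outer j (hk j hj)).2.2.1]
  have s3 := sumS (fun j => lp (TT j) (z - x j)) k fun j hj => by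
    rw [l0 j hj, norm_zero]; have := q_pos j; positivity
  have s4 := sumS (fun j => w (TT j) ‖z - x j‖) k fun j hj => by
    rw [Real.norm_of_nonneg (w_nonneg (TT_pos j))]; exact (outer j (hk j hj)).2.2.2
  have hW : w (TT k) ‖z - x k‖ ≤ W z :=
    s4.1.of_norm.le_tsum k fun j _ => w_nonneg (TT_pos j)
  have hw0 := w_nonneg (r := ‖z - x k‖) (TT_pos k)
  have hL : L z = lp (TT k) (z - x k) := tsum_eq_single k l0
  have g1 := g_sq (TT_pos k) (norm_nonneg (z - x k)) (near hz k)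
  rw [← norm_gr (TT_pos k)] at g1
  have g2 : ‖G z - gr (TT k) (z - x k)‖ ≤ 1 := s2.2.2
  have g3 := abs_norm_sub_norm_le (G z) (gr (TT k) (z - x k))
  obtain ⟨g4, g5⟩ := abs_le.1 (g3.trans g2)
  have l1 : ‖lp (TT k) (z - x k)‖ ≤ 2 * w (TT k) ‖z - x k‖ := by
    rw [lp, norm_neg]; exact ch_bd (TT_pos k) (norm_nonneg _)
  have n1 := norm_nonneg (G z)
  have n2 := norm_nonneg (gr (TT k) (z - x k))
  refine ⟨⟨s1.1, s1.2.1.trans ?_⟩, ⟨s2.1, s2.2.1.trans ?_⟩, ⟨s3.1, s3.2.1.trans ?_⟩, ?_, ?_⟩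
  · rw [Real.norm_of_nonneg (fb k).1]; linarith [(fb k).2]
  · nlinarith [sq_nonneg (‖gr (TT k) (z - x k)‖ - 1)]
  · linarith
  · nlinarith [sq_nonneg (‖gr (TT k) (z - x k)‖ - 1)]
  · by_cases hl : L z = 0
    · simp only [B, hl, zero_div, zero_smul, norm_zero, inner_zero_right, and_true]
      nlinarith
    · have hc : ch (TT k) ‖z - x k‖ / ‖z - x k‖ ≠ 0 := fun e => hl (by rw [hL, lp, e, neg_zero])
      obtain ⟨a1, a2⟩ := inner_bd (TT_ge k) (norm_nonneg _) hc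
      rw [← norm_gr (TT_pos k)] at a1 a2
      have a3 : L z ^ 2 = 4 * w (TT k) ‖z - x k‖ * ‖gr (TT k) (z - x k)‖ ^ 2 := by
        rw [hL, lp, neg_sq, a2]
      have a4 : 0 < ‖G z‖ := by linarith
      constructor
      · have : ‖B z‖ ^ 2 = L z ^ 2 / ‖G z‖ ^ 2 := by
          rw [B, norm_smul, mul_pow, Real.norm_eq_abs, sq_abs]; field_simp
        rw [this, a3, div_le_iff₀ (by positivity)]
        have a5 : ‖gr (TT k) (z - x k)‖ ^ 2 ≤ (2 * ‖G z‖) ^ 2 := by gcongr; linarith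
        calc _ ≤ 4 * W z * (2 * ‖G z‖) ^ 2 := by gcongr; linarith
          _ = _ := by ring
      · rw [B, inner_smul_right, real_inner_self_eq_norm_sq]; field_simp

end Pool.Agent.H.MP_89b2fa_an
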