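import Mathlib
import Pool.Agent.H.MP_89b2fa_an.C
namespace Pool.Agent.H.MP_89b2fa_an
open Real MeasureTheory Set Filter Topology Metric
open scoped ContDiff

noncomputable abbrev m : Measure ℂ := volume.restrict (ball 0 (1 / 2))

instance : IsFiniteMeasure m := isFiniteMeasure_restrict.2 measure_ball_lt_top.ne

lemma ae_m : ∀ᵐ z ∂m, ‖z‖ < 1 / 2 := by
  filter_upwards [ae_restrict_mem measurableSet_ball] with z hz using mem_ball_zero_iff.1 hz

lemma int_Wm : Integrable W m := int_W.integrableOn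

lemma U_bd {z : ℂ} (hz : ‖z‖ < 1 / 2) : ‖U z‖ ≤ 3 :=
  (norm_tsum_le_tsum_norm (pw hz).1.1).trans (pw hz).1.2

lemma U_top : MemLp U ⊤ m :=
  memLp_top_of_bound meas_U.aestronglyMeasurable 3 (ae_m.mono fun _ hz => U_bd hz)

lemma G_two : MemLp G 2 m := by
  rw [memLp_two_iff_integrable_sq_norm meas_G.aestronglyMeasurable]
  refine ((integrable_const 2).add (int_Wm.const_mul 2)).mono'
    (meas_G.norm.pow_const 2).aestronglyMeasurable (ae_m.mono fun z hz => ?_)
  rw [Real.norm_of_nonneg (by positivity)]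
  exact (pw hz).2.2.2.1

lemma B_two : MemLp B 2 m := by
  rw [memLp_two_iff_integrable_sq_norm meas_B.aestronglyMeasurable]
  refine (int_Wm.const_mul 16).mono'
    (meas_B.norm.pow_const 2).aestronglyMeasurable (ae_m.mono fun z hz => ?_)
  rw [Real.norm_of_nonneg (by positivity)]
  exact (pw hz).2.2.2.2.1

variable {h : ℂ → ℝ}

lemma tst (h1 : ContDiff ℝ ∞ h) (h2 : HasCompactSupport h) (h3 : tsupport h ⊆ ball 0 (1 / 2)) :
    ∃ C, (∀ z, |h z| ≤ C ∧ ‖fderiv ℝ h z‖ ≤ C) ∧
      (∀ z, z ∉ ball (0:ℂ) (1 / 2) → h z = 0 ∧ fderiv ℝ h z = 0) ∧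
      ∀ k, Tst (fun z => h (z + x k)) (fun z => fderiv ℝ h (z + x k)) C := by
  have c1 : Continuous (fderiv ℝ h) := h1.continuous_fderiv (by simp)
  obtain ⟨C1, hC1⟩ := h1.continuous.bounded_above_of_compact_support h2
  obtain ⟨C2, hC2⟩ := c1.bounded_above_of_compact_support (h2.fderiv (𝕜 := ℝ))
  have b : ∀ z, |h z| ≤ max C1 C2 ∧ ‖fderiv ℝ h z‖ ≤ max C1 C2 :=
    fun z => ⟨(hC1 z).trans (le_max_left _ _), (hC2 z).trans (le_max_right _ _)⟩
  have z0 : ∀ z, z ∉ ball (0:ℂ) (1 / 2) → h z = 0 ∧ fderiv ℝ h z = 0 := fun z hz =>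
    ⟨image_eq_zero_of_notMem_tsupport fun hh => hz (h3 hh),
      image_eq_zero_of_notMem_tsupport fun hh => hz (h3 (tsupport_fderiv_subset ℝ hh))⟩
  refine ⟨max C1 C2, b, z0, fun k => ⟨fun z => ?_, by fun_prop, fun z hz => z0 _ ?_, fun z => b _⟩⟩
  · exact (hasFDerivAt_comp_add_right _).2
      (h1.differentiable (by simp) _).hasFDerivAt
  · rw [mem_ball_zero_iff, not_lt]
    have := norm_sub_le (z + x k) (x k)
    rw [add_sub_cancel_right, norm_x] at this
    have := q_le k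
    linarith

lemma W_nn (z : ℂ) : 0 ≤ W z := tsum_nonneg fun k => w_nonneg (TT_pos k)

lemma weak_a (h1 : ContDiff ℝ ∞ h) (h2 : HasCompactSupport h) (h3 : tsupport h ⊆ ball 0 (1 / 2))
    (v : ℂ) : ∫ z, U z * fderiv ℝ h z v ∂m = -∫ z, inner ℝ (G z) v * h z ∂m := by
  obtain ⟨C, b, z0, H⟩ := tst h1 h2 h3
  have hC := (H 0).nn
  have c1 : Continuous fun z => fderiv ℝ h z v := by
    have : Continuous (fderiv ℝ h) := h1.continuous_fderiv (by simp)
    fun_prop
  have c2 := h1.continuous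
  have b1 : ∀ z, ‖fderiv ℝ h z v‖ ≤ C * ‖v‖ := fun z =>
    ((fderiv ℝ h z).le_opNorm v).trans (by gcongr; exact (b z).2)
  have key := dom (μ := m)
    (fun k z => F (TT k) ‖z - x k‖ * fderiv ℝ h z v + h z * inner ℝ (gr (TT k) (z - x k)) v)
    (fun k => ((mF k).mul c1.measurable).add (c2.measurable.mul ((mG k).inner measurable_const)))
    (fun z => C * ‖v‖ * (3 + (2 + W z)))
    (((integrable_const 3).add ((integrable_const 2).add int_Wm)).const_mul _)
    (ae_m.mono fun z hz => ?_) (fun k => ?_)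
  · have i1 : Integrable (fun z => U z * fderiv ℝ h z v) m :=
      (U_top.integrable le_top).mul_bdd c1.aestronglyMeasurable (ae_of_all _ b1)
    have i2 : Integrable (fun z => inner ℝ (G z) v * h z) m :=
      ((G_two.integrable one_le_two).inner_const v).mul_bdd c2.aestronglyMeasurable
        (ae_of_all _ fun z => (b z).1)
    rw [eq_neg_iff_add_eq_zero, ← integral_add i1 i2, ← key]
    refine integral_congr_ae (ae_m.mono fun z hz => ?_)
    have a1 := (pw hz).1.1.of_norm.hasSum.mul_right (fderiv ℝ h z v)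
    have a2 := (((pw hz).2.1.1.of_norm.hasSum.mapL (innerSL ℝ v)).mul_left (h z))
    simp only [innerSL_apply_apply, real_inner_comm _ v] at a2
    beta_reduce
    rw [(a1.add a2).tsum_eq, mul_comm (h z)]
    rfl
  · have s := ((pw hz).1.1.add (pw hz).2.1.1).mul_left (C * ‖v‖)
    have le : ∀ k, ‖F (TT k) ‖z - x k‖ * fderiv ℝ h z v + h z * inner ℝ (gr (TT k) (z - x k)) v‖ ≤
        C * ‖v‖ * (‖F (TT k) ‖z - x k‖‖ + ‖gr (TT k) (z - x k)‖) := fun k => by
      refine (norm_add_le _ _).trans ?_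
      rw [norm_mul, norm_mul]
      have a1 : ‖F (TT k) ‖z - x k‖‖ * ‖fderiv ℝ h z v‖ ≤ ‖F (TT k) ‖z - x k‖‖ * (C * ‖v‖) := by
        gcongr; exact b1 z
      have a2 : ‖h z‖ * ‖inner ℝ (gr (TT k) (z - x k)) v‖ ≤ C * (‖gr (TT k) (z - x k)‖ * ‖v‖) := by
        gcongr
        exacts [(b z).1, norm_inner_le_norm _ _]
      linarith
    have s2 := Summable.of_nonneg_of_le (fun k => norm_nonneg _) le s
    refine ⟨s2, (s2.tsum_le_tsum le s).trans ?_⟩
    rw [tsum_mul_left, (pw hz).1.1.tsum_add (pw hz).2.1.1]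
    gcongr
    exacts [(pw hz).1.2, (pw hz).2.1.2]
  · rw [setIntegral_eq_integral_of_forall_compl_eq_zero fun z hz => by simp [z0 z hz],
      ← integral_add_right_eq_self _ (x k)]
    simpa only [add_sub_cancel_right] using peak_a (TT_pos k) (H k) v

lemma weak_b (h1 : ContDiff ℝ ∞ h) (h2 : HasCompactSupport h) (h3 : tsupport h ⊆ ball 0 (1 / 2)) :
    ∫ z, inner ℝ (G z) (gradient h z + h z • B z) ∂m = 0 := by
  obtain ⟨C, b, z0, H⟩ := tst h1 h2 h3
  have hC := (H 0).nn
  have c1 : Continuous fun p : ℂ × ℂ => fderiv ℝ h p.1 p.2 := by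
    have : Continuous (fderiv ℝ h) := h1.continuous_fderiv (by simp)
    fun_prop
  have c2 := h1.continuous
  have key := dom (μ := m)
    (fun k z => fderiv ℝ h z (gr (TT k) (z - x k)) + h z * lp (TT k) (z - x k))
    (fun k => (c1.measurable.comp (measurable_id.prodMk (mG k))).add (c2.measurable.mul (mL k)))
    (fun z => C * ((2 + W z) + (1 + 2 * W z)))
    ((((integrable_const 2).add int_Wm).add
      ((integrable_const 1).add (int_Wm.const_mul 2))).const_mul _)
    (ae_m.mono fun z hz => ?_) (fun k => ?_)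
  · rw [← key]
    refine integral_congr_ae (ae_m.mono fun z hz => ?_)
    have a1 := (pw hz).2.1.1.of_norm.hasSum.mapL (fderiv ℝ h z)
    have a2 := (pw hz).2.2.1.1.of_norm.hasSum.mul_left (h z)
    beta_reduce
    rw [(a1.add a2).tsum_eq, inner_add_right, inner_smul_right, (pw hz).2.2.2.2.2,
      inner_gradient_right]
    rfl
  · have s := ((pw hz).2.1.1.add (pw hz).2.2.1.1).mul_left C
    have le : ∀ k, ‖fderiv ℝ h z (gr (TT k) (z - x k)) + h z * lp (TT k) (z - x k)‖ ≤
        C * (‖gr (TT k) (z - x k)‖ + ‖lp (TT k) (z - x k)‖) := fun k => by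
      refine (norm_add_le _ _).trans ?_
      rw [norm_mul]
      have a1 : ‖fderiv ℝ h z (gr (TT k) (z - x k))‖ ≤ C * ‖gr (TT k) (z - x k)‖ :=
        ((fderiv ℝ h z).le_opNorm _).trans (by gcongr; exact (b z).2)
      have a2 : ‖h z‖ * ‖lp (TT k) (z - x k)‖ ≤ C * ‖lp (TT k) (z - x k)‖ := by
        gcongr
        exact (b z).1
      linarith
    have s2 := Summable.of_nonneg_of_le (fun k => norm_nonneg _) le s
    refine ⟨s2, (s2.tsum_le_tsum le s).trans ?_⟩
    rw [tsum_mul_left, (pw hz).2.1.1.tsum_add (pw hz).2.2.1.1]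
    gcongr
    exacts [(pw hz).2.1.2, (pw hz).2.2.1.2]
  · rw [setIntegral_eq_integral_of_forall_compl_eq_zero fun z hz => by simp [z0 z hz],
      ← integral_add_right_eq_self _ (x k)]
    simpa only [add_sub_cancel_right] using peak_b (TT_pos k) (H k)

lemma U_lo {z : ℂ} (hz : ‖z‖ < 1 / 2) (h0 : z.re < 0) : U z ≤ 1 := by
  have fb := fun j => F_bd (TT_pos j) (norm_nonneg (z - x j)) (near hz j).le
  have hs : HasSum (fun j => q j / 2) 1 := by
    simpa [q] using hasSum_geometric_two.div_const 2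
  refine (Real.le_norm_self _).trans (tsum_of_norm_bounded hs fun j => ?_)
  rw [Real.norm_of_nonneg (fb j).1]
  refine (outer j ?_).1
  have h1 := Complex.abs_re_le_norm (z - x j)
  have h2 : (z - x j).re = z.re - q j / 4 := by simp only [x, Complex.sub_re, Complex.ofReal_re]
  have := neg_abs_le (z - x j).re
  have := q_pos j
  linarith

lemma U_hi (k : ℕ) : ∀ᶠ z in 𝓝 (x k), 3 / 2 < U z := by
  have c : Continuous fun z : ℂ => F (TT k) ‖z - x k‖ :=
    (cont_F (TT_pos k)).comp_continuous (by fun_prop) fun z => norm_nonneg _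
  have h1 : ∀ᶠ z in 𝓝 (x k), 3 / 2 < F (TT k) ‖z - x k‖ :=
    c.continuousAt.eventually (lt_mem_nhds (by simp [F_zero (TT_pos k)]; norm_num))
  have h2 : ∀ᶠ z in 𝓝 (x k), ‖z‖ < 1 / 2 :=
    continuous_norm.continuousAt.eventually (gt_mem_nhds (by simp only [norm_x]; linarith [q_le k]))
  filter_upwards [h1, h2] with z a1 a2
  exact a1.trans_le ((pw a2).1.1.of_norm.le_tsum k fun j _ =>
    (F_bd (TT_pos j) (norm_nonneg (z - x j)) (near a2 j).le).1)

lemma discont : ¬ ∃ v : ℂ → ℝ, ContinuousOn v (ball 0 (1 / 2)) ∧ U =ᵐ[m] v := by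
  rintro ⟨v, hv, he⟩
  have hd := Measure.dense_of_ae ((ae_restrict_iff' measurableSet_ball).1 he)
  have hc := hv.continuousAt (ball_mem_nhds (0:ℂ) (by norm_num))
  obtain ⟨d, hd0, hδ⟩ := Metric.continuousAt_iff.1 hc (1 / 4) (by norm_num)
  obtain ⟨k, hk⟩ := exists_pow_lt_of_lt_one hd0 (show (1 / 2 : ℝ) < 1 by norm_num)
  have hk' : q k < d := hk
  have := q_pos k
  have := q_le k
  have o : IsOpen (ball (0:ℂ) (min d (1 / 2))) := isOpen_ball
  have xk : ‖x k‖ < min d (1 / 2) := by rw [norm_x]; exact lt_min (by linarith) (by linarith)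
  have m1 : {z | 3 / 2 < U z} ∩ ball (0:ℂ) (min d (1 / 2)) ∈ 𝓝 (x k) :=
    inter_mem (U_hi k) (o.mem_nhds (mem_ball_zero_iff.2 xk))
  have m2 : {z : ℂ | z.re < 0} ∩ ball (0:ℂ) (min d (1 / 2)) ∈ 𝓝 (-x k) :=
    inter_mem ((isOpen_lt Complex.continuous_re continuous_const).mem_nhds (by
      simp only [x, mem_ofPred_eq, Complex.neg_re, Complex.ofReal_re]; linarith))
      (o.mem_nhds (mem_ball_zero_iff.2 (by rwa [norm_neg])))
  obtain ⟨z1, e1, a1, b1⟩ := hd.inter_nhds_nonempty m1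
  obtain ⟨z2, e2, a2, b2⟩ := hd.inter_nhds_nonempty m2
  rw [mem_ball_zero_iff, lt_min_iff] at b1 b2
  have f1 := e1 (mem_ball_zero_iff.2 b1.2)
  have f2 := e2 (mem_ball_zero_iff.2 b2.2)
  have g1 := hδ (x := z1) (by simpa using b1.1)
  have g2 := hδ (x := z2) (by simpa using b2.1)
  have g3 := U_lo b2.2 a2
  have g4 : 3 / 2 < U z1 := a1
  rw [Real.dist_eq, abs_lt] at g1 g2
  linarith [g1.2, g2.1]

abbrev E := EuclideanSpace ℝ (Fin 2)

noncomputable def e : E ≃ₗᵢ[ℝ] ℂ := Complex.orthonormalBasisOneI.repr.symm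

lemma pre : e ⁻¹' ball (0:ℂ) (1 / 2) = ball 0 (1 / 2) := by
  ext z; simp

lemma mp : MeasurePreserving e (volume.restrict (ball 0 (1 / 2))) m := by
  rw [← pre]
  exact e.measurePreserving.restrict_preimage measurableSet_ball

lemma emb : MeasurableEmbedding e := e.toHomeomorph.measurableEmbedding

lemma tr {h : E → ℝ} (h1 : ContDiff ℝ ∞ h) (h2 : HasCompactSupport h)
    (h3 : tsupport h ⊆ ball 0 (1 / 2)) : ContDiff ℝ ∞ (h ∘ e.symm) ∧
    HasCompactSupport (h ∘ e.symm) ∧ tsupport (h ∘ e.symm) ⊆ ball 0 (1 / 2) ∧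
    ∀ z v, fderiv ℝ (h ∘ e.symm) (e z) v = fderiv ℝ h z (e.symm v) := by
  refine ⟨h1.comp e.symm.contDiff, h2.comp_homeomorph e.symm.toHomeomorph, fun z hz => ?_,
    fun z v => ?_⟩
  · have := h3 (tsupport_comp_subset_preimage h e.symm.continuous hz)
    simpa using this
  · have := e.symm.toContinuousLinearEquiv.comp_right_fderiv (f := h) (x := e z)
    change fderiv ℝ (h ∘ e.symm.toContinuousLinearEquiv) (e z) v = _
    rw [this]; simp

theorem main : ∃ (R : ℝ) (b : E → E) (u : E → ℝ) (g : E → E), 0 < R ∧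
    MemLp b 2 (volume.restrict (ball 0 R)) ∧
    MemLp u 2 (volume.restrict (ball 0 R)) ∧ MemLp g 2 (volume.restrict (ball 0 R)) ∧
    (∀ h : E → ℝ, ContDiff ℝ ∞ h → HasCompactSupport h → tsupport h ⊆ ball 0 R → ∀ v : E,
      ∫ z in ball 0 R, u z * fderiv ℝ h z v = -∫ z in ball 0 R, inner ℝ (g z) v * h z) ∧
    (∀ h : E → ℝ, ContDiff ℝ ∞ h → HasCompactSupport h → tsupport h ⊆ ball 0 R →
      ∫ z in ball 0 R, inner ℝ (g z) (gradient h z + h z • b z) = 0) ∧
    MemLp u ⊤ (volume.restrict (ball 0 R)) ∧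
    ¬ ∃ v : E → ℝ, ContinuousOn v (ball 0 R) ∧ u =ᵐ[volume.restrict (ball 0 R)] v := by
  have l : ∀ {f : ℂ → ℂ}, MemLp f 2 m →
      MemLp (fun z => e.symm (f (e z))) 2 (volume.restrict (ball (0:E) (1 / 2))) := fun hf =>
    e.symm.toContinuousLinearEquiv.toContinuousLinearMap.comp_memLp' (hf.comp_measurePreserving mp)
  refine ⟨1 / 2, fun z => e.symm (B (e z)), fun z => U (e z), fun z => e.symm (G (e z)),
    by norm_num, l B_two, (U_top.mono_exponent le_top).comp_measurePreserving mp, l G_two,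
    fun h h1 h2 h3 v => ?_, fun h h1 h2 h3 => ?_, U_top.comp_measurePreserving mp, ?_⟩
  · obtain ⟨a1, a2, a3, a4⟩ := tr h1 h2 h3
    have := weak_a a1 a2 a3 (e v)
    rw [← mp.integral_comp emb, ← mp.integral_comp emb] at this
    simp only [a4, LinearIsometryEquiv.symm_apply_apply, Function.comp] at this
    rw [this]
    congr 2
    ext z
    rw [← e.inner_map_map (e.symm (G (e z))) v, e.apply_symm_apply]
  · obtain ⟨a1, a2, a3, a4⟩ := tr h1 h2 h3
    have := weak_b a1 a2 a3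
    rw [← mp.integral_comp emb] at this
    rw [← this]
    congr 1
    ext z
    simp only [inner_add_right, inner_smul_right, inner_gradient_right, a4, Function.comp,
      LinearIsometryEquiv.symm_apply_apply, LinearIsometryEquiv.inner_map_map]
  · rintro ⟨v, hv, he⟩
    refine discont ⟨v ∘ e.symm, hv.comp e.symm.continuous.continuousOn fun z hz => ?_, ?_⟩
    · simpa using hz
    · rw [← mp.map_eq]
      refine emb.ae_map_iff.2 ?_
      filter_upwards [he] with z hz
      simpa using hz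

end Pool.Agent.H.MP_89b2fa_an
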